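import Pool.Agent.U737.CT.Core
import Pool.Agent.W896.MO.Mv

/-!
# Matrix-vector products with little memory: the upper bound
-/

set_option autoImplicit false

open Finset

namespace Pool.Agent.U737.CT

open Pool.Agent.W896.MO (mv)

variable {ι ω α Γ : Type}

/-- One action leads from `c` to `c'`. -/
def Step (P : Prog ι ω α Γ) (x : ι → α) (c : P.Node × Γ) (e : ι ⊕ (ω × α)) (c' : P.Node × Γ) :
    Prop :=
  (∃ i nxt, P.act c = .read i nxt ∧ e = .inl i ∧ c' = nxt (x i)) ∨
    ∃ o v, P.act c = .write o v c' ∧ e = .inr (o, v)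

theorem Step.unique {P : Prog ι ω α Γ} {x : ι → α} {c c₁ c₂ : P.Node × Γ} {e₁ e₂ : ι ⊕ (ω × α)}
    (h₁ : Step P x c e₁ c₁) (h₂ : Step P x c e₂ c₂) : e₁ = e₂ ∧ c₁ = c₂ := by
  rcases h₁ with ⟨i, nxt, a1, a2, a3⟩ | ⟨o, v, a1, a2⟩ <;>
    rcases h₂ with ⟨i', nxt', b1, b2, b3⟩ | ⟨o', v', b1, b2⟩
  · rw [a1] at b1
    injection b1 with h3 h4
    subst h3 h4
    exact ⟨a2.trans b2.symm, a3.trans b3.symm⟩
  · rw [a1] at b1
    cases b1
  · rw [a1] at b1
    cases b1
  · rw [a1] at b1
    injection b1 with h3 h4 h5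
    subst h3 h4
    exact ⟨a2.trans b2.symm, h5⟩

theorem run_steps (P : Prog ι ω α Γ) (x : ι → α) (nd : ℕ → P.Node × Γ) (ev : ℕ → ι ⊕ (ω × α))
    (L : ℕ) (h : ∀ i < L, Step P x (nd i) (ev i) (nd (i + 1))) (t i : ℕ) (ht : i + t ≤ L) :
    P.after x t (nd i) = nd (i + t) ∧ P.trace x t (nd i) = (List.range' i t).map ev := by
  induction t generalizing i with
  | zero => exact ⟨rfl, rfl⟩
  | succ t ih =>
    obtain ⟨h1, h2⟩ := ih (i + 1) (by omega)
    have h3 : i + 1 + t = i + (t + 1) := by ring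
    rw [h3] at h1
    rcases h i (by omega) with ⟨j, nxt, h4, h5, h6⟩ | ⟨o, v, h4, h5⟩
    · simp only [Prog.after, Prog.trace, h4]
      rw [← h6, h1, h2, List.range'_succ, List.map_cons, h5]
      exact ⟨rfl, rfl⟩
    · simp only [Prog.after, Prog.trace, h4]
      rw [h1, h2, List.range'_succ, List.map_cons, h5]
      exact ⟨rfl, rfl⟩

/-- A criterion for `Computes`. -/
theorem computes_of_steps (P : Prog ι ω α Γ) (E : Γ → Γ → Prop) (L : ℕ) (τ : Γ) (x : ι → α)
    (y : ω → α) (nd : ℕ → P.Node × Γ) (h0 : nd 0 = (P.start, τ)) (hL : P.act (nd L) = Act.halt)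
    (hE : E τ (nd L).2) (h : ∀ i < L, ∃ e, Step P x (nd i) e (nd (i + 1)))
    (h1 : ∀ i < L, ∀ o v c, P.act (nd i) = Act.write o v c → v = y o)
    (h2 : ∀ o, ∃ i < L, ∃ c, P.act (nd i) = Act.write o (y o) c) :
    P.Computes E L τ x y := by
  rcases Nat.eq_zero_or_pos L with hz | hz
  · subst hz
    refine ⟨?_, ?_, ?_, ?_⟩
    · rw [← h0]; exact hL
    · rw [← h0]; exact hE
    · intro o v hv
      simp [Prog.trace] at hv
    · intro o
      obtain ⟨i, hi, -⟩ := h2 o
      omega
  have hex : ∀ i, ∃ e, i < L → Step P x (nd i) e (nd (i + 1)) := by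
    intro i
    by_cases hi : i < L
    · obtain ⟨e, he⟩ := h i hi
      exact ⟨e, fun _ => he⟩
    · obtain ⟨e, -⟩ := h 0 hz
      exact ⟨e, fun h => absurd h hi⟩
  choose ev hev using hex
  obtain ⟨h3, h4⟩ := run_steps P x nd ev L (fun i hi => hev i hi) L 0 (by omega)
  rw [Nat.zero_add, h0] at h3
  rw [h0] at h4
  refine ⟨?_, ?_, ?_, ?_⟩
  · rw [h3]; exact hL
  · rw [h3]; exact hE
  · intro o v hv
    rw [h4, List.mem_map] at hv
    obtain ⟨i, hi, h5⟩ := hv
    rw [List.mem_range'_1] at hi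
    have h6 := hev i (by omega)
    rw [h5] at h6
    rcases h6 with ⟨j, nxt, h7, h8, h9⟩ | ⟨o', v', h7, h8⟩
    · cases h8
    · injection h8 with h9
      rw [Prod.mk.injEq] at h9
      rw [h9.1, h9.2]
      exact h1 i (by omega) _ _ _ h7
  · intro o
    obtain ⟨i, hi, c, h5⟩ := h2 o
    rw [h4, List.mem_map]
    refine ⟨i, List.mem_range'_1.2 (by omega), ?_⟩
    exact (Step.unique (hev i hi) (Or.inr ⟨o, y o, h5, rfl⟩ : Step P x (nd i) _ c)).1

set_option linter.unusedSectionVars false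

variable {F : Type} [Field F] [Fintype F]

/-- The entries of a matrix, zero outside. -/
def mx {n : ℕ} (M : Fin n → Fin n → F) (r c : ℕ) : F :=
  if h : r < n ∧ c < n then M ⟨r, h.1⟩ ⟨c, h.2⟩ else 0

/-- The program: the counter `i` is the number `(j * b + u) * (n + k) + p`; in the block `u` of `k`
rows for the vector `j` first the entries of the vector are read, then the sums are written. -/
def blockProg {n : ℕ} (m b k : ℕ) (hn : 0 < n) (M : Fin n → Fin n → F) :
    Prog (Fin m × Fin n) (Fin m × Fin n) F Unit where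
  Node := Fin (m * b * (n + k) + 1) × (Fin k → F)
  start := (⟨0, Nat.succ_pos _⟩, fun _ => 0)
  act := fun c =>
    if h : c.1.1.1 < m * b * (n + k) then
      have hj : c.1.1.1 / (n + k) / b < m := by
        have hb : 0 < b := by
          rcases Nat.eq_zero_or_pos b with hb | hb
          · subst hb; simp at h
          · exact hb
        rw [Nat.div_lt_iff_lt_mul hb, Nat.div_lt_iff_lt_mul (by omega)]
        exact h
      if hp : c.1.1.1 % (n + k) < n then
        .read (⟨c.1.1.1 / (n + k) / b, hj⟩, ⟨c.1.1.1 % (n + k), hp⟩)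
          (fun v => ((⟨c.1.1.1 + 1, by omega⟩, fun t => c.1.2 t +
            mx M (c.1.1.1 / (n + k) % b * k + t) (c.1.1.1 % (n + k)) * v), ()))
      else if hr : c.1.1.1 / (n + k) % b * k + (c.1.1.1 % (n + k) - n) < n then
        .write (⟨c.1.1.1 / (n + k) / b, hj⟩, ⟨_, hr⟩)
          (c.1.2 ⟨c.1.1.1 % (n + k) - n, by
            have := Nat.mod_lt c.1.1.1 (show 0 < n + k by omega)
            omega⟩)
          ((⟨c.1.1.1 + 1, by omega⟩, if c.1.1.1 % (n + k) + 1 = n + k then fun _ => 0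
            else c.1.2), ())
      else
        .read (⟨c.1.1.1 / (n + k) / b, hj⟩, ⟨0, hn⟩)
          (fun _ => ((⟨c.1.1.1 + 1, by omega⟩, if c.1.1.1 % (n + k) + 1 = n + k then fun _ => 0
            else c.1.2), ()))
    else .halt

section
variable {n m b k : ℕ} {hn : 0 < n} {M : Fin n → Fin n → F} {i : ℕ}

theorem act_halt (A : Fin k → F) : (blockProg m b k hn M).act
    ((⟨m * b * (n + k), Nat.lt_succ_self _⟩, A), ()) = Act.halt := by
  simp only [blockProg, lt_irrefl, dite_false]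

theorem act_read (hi : i < m * b * (n + k)) (hj : i / (n + k) / b < m) (hp : i % (n + k) < n)
    (A : Fin k → F) : (blockProg m b k hn M).act ((⟨i, Nat.lt_succ_of_lt hi⟩, A), ()) =
    Act.read (⟨_, hj⟩, ⟨_, hp⟩) (fun v => ((⟨i + 1, Nat.succ_lt_succ hi⟩,
      fun t => A t + mx M (i / (n + k) % b * k + t) (i % (n + k)) * v), ())) := by
  simp only [blockProg, hi, hp, dite_true]

theorem act_write (hi : i < m * b * (n + k)) (hj : i / (n + k) / b < m) (hp : ¬ i % (n + k) < n)
    (hr : i / (n + k) % b * k + (i % (n + k) - n) < n) (ht : i % (n + k) - n < k)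
    (A : Fin k → F) : (blockProg m b k hn M).act ((⟨i, Nat.lt_succ_of_lt hi⟩, A), ()) =
    Act.write (⟨_, hj⟩, ⟨_, hr⟩) (A ⟨i % (n + k) - n, ht⟩) ((⟨i + 1, Nat.succ_lt_succ hi⟩,
      if i % (n + k) + 1 = n + k then fun _ => 0 else A), ()) := by
  simp only [blockProg, hi, hp, hr, dite_true, dite_false]

theorem act_none (hi : i < m * b * (n + k)) (hj : i / (n + k) / b < m) (hp : ¬ i % (n + k) < n)
    (hr : ¬ i / (n + k) % b * k + (i % (n + k) - n) < n)
    (A : Fin k → F) : (blockProg m b k hn M).act ((⟨i, Nat.lt_succ_of_lt hi⟩, A), ()) =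
    Act.read (⟨_, hj⟩, ⟨0, hn⟩) (fun _ => ((⟨i + 1, Nat.succ_lt_succ hi⟩,
      if i % (n + k) + 1 = n + k then fun _ => 0 else A), ())) := by
  simp only [blockProg, hi, hp, hr, dite_true, dite_false]

end

theorem div_mod_succ {i N : ℕ} (h : i % N + 1 < N) :
    (i + 1) / N = i / N ∧ (i + 1) % N = i % N + 1 := by
  have h1 : i + 1 = N * (i / N) + (i % N + 1) := by
    have := Nat.div_add_mod i N
    omega
  constructor
  · conv_lhs => rw [h1]
    rw [Nat.mul_add_div (by omega), Nat.div_eq_of_lt h, add_zero]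
  · conv_lhs => rw [h1]
    rw [Nat.mul_add_mod, Nat.mod_eq_of_lt h]

theorem mod_succ_zero {i N : ℕ} (h : i % N + 1 = N) : (i + 1) % N = 0 := by
  have h1 : i + 1 = N * (i / N + 1) := by
    have := Nat.div_add_mod i N
    rw [Nat.mul_succ]
    omega
  rw [h1, Nat.mul_mod_right]

/-- The entries of the vectors, zero outside. -/
def vx {n m : ℕ} (v : Fin m × Fin n → F) (j c : ℕ) : F :=
  if h : j < m ∧ c < n then v (⟨j, h.1⟩, ⟨c, h.2⟩) else 0

/-- The values of the sums. -/
def acc {n m : ℕ} (b k : ℕ) (M : Fin n → Fin n → F) (v : Fin m × Fin n → F) (i : ℕ) (t : Fin k) : F :=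
  ∑ c ∈ range (min (i % (n + k)) n), mx M (i / (n + k) % b * k + t) c *
    vx v (i / (n + k) / b) c

theorem acc_zero {n m : ℕ} (b k : ℕ) (M : Fin n → Fin n → F) (v : Fin m × Fin n → F) {i : ℕ}
    (h : i % (n + k) = 0) : acc b k M v i = fun _ => 0 := by
  funext t
  unfold acc
  rw [h]
  simp

theorem acc_full {n m : ℕ} (b k : ℕ) (M : Fin n → Fin n → F) (v : Fin m × Fin n → F) {i : ℕ}
    (h : n ≤ i % (n + k)) (hj : i / (n + k) / b < m) (t : Fin k)
    (hr : i / (n + k) % b * k + t < n) :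
    acc b k M v i t = mv M v (⟨_, hj⟩, ⟨_, hr⟩) := by
  unfold acc mv
  rw [min_eq_right h, ← Fin.sum_univ_eq_sum_range (fun c => mx M (i / (n + k) % b * k + t) c *
    vx v (i / (n + k) / b) c)]
  refine sum_congr rfl (fun c _ => ?_)
  unfold mx vx
  rw [dif_pos ⟨hr, c.2⟩, dif_pos ⟨hj, c.2⟩]

theorem acc_succ {n m : ℕ} (b k : ℕ) (hk : 0 < k) (M : Fin n → Fin n → F)
    (v : Fin m × Fin n → F) {i : ℕ} (hp : i % (n + k) < n) (hj : i / (n + k) / b < m) :
    acc b k M v (i + 1) = fun t => acc b k M v i t +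
      mx M (i / (n + k) % b * k + t) (i % (n + k)) * v (⟨_, hj⟩, ⟨_, hp⟩) := by
  funext t
  obtain ⟨h1, h2⟩ := div_mod_succ (i := i) (N := n + k) (by omega)
  unfold acc
  rw [h1, h2, min_eq_left (by omega), min_eq_left hp.le, sum_range_succ]
  congr 2
  unfold vx
  rw [dif_pos ⟨hj, hp⟩]

theorem acc_keep {n m : ℕ} (b k : ℕ) (hk : 0 < k) (M : Fin n → Fin n → F)
    (v : Fin m × Fin n → F) {i : ℕ} (hp : ¬ i % (n + k) < n) :
    acc b k M v (i + 1) = if i % (n + k) + 1 = n + k then fun _ => 0 else acc b k M v i := by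
  split_ifs with h
  · exact acc_zero b k M v (mod_succ_zero h)
  · have h0 := Nat.mod_lt i (show 0 < n + k by omega)
    obtain ⟨h1, h2⟩ := div_mod_succ (i := i) (N := n + k) (by omega)
    funext t
    unfold acc
    rw [h1, h2, min_eq_right (by omega), min_eq_right (by omega)]

/-- **The upper bound.** -/
theorem block_computes {n : ℕ} (m b k : ℕ) (hn : 0 < n) (hk : 0 < k) (hb : n < b * k)
    (M : Fin n → Fin n → F) (v : Fin m × Fin n → F) :
    (blockProg m b k hn M).Computes Eq (m * b * (n + k)) () v (mv M v) := by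
  have hb0 : 0 < b := by
    rcases Nat.eq_zero_or_pos b with h | h
    · subst h; simp at hb
    · exact h
  have hjm : ∀ i < m * b * (n + k), i / (n + k) / b < m := by
    intro i hi
    rw [Nat.div_lt_iff_lt_mul hb0, Nat.div_lt_iff_lt_mul (by omega)]
    exact hi
  obtain ⟨nd, hnd⟩ : ∃ nd : ℕ → (blockProg m b k hn M).Node × Unit, ∀ i, nd i =
    if h : i ≤ m * b * (n + k) then ((⟨i, by omega⟩, acc b k M v i), ()) else
      ((blockProg m b k hn M).start, ()) := ⟨_, fun _ => rfl⟩
  have hnd' : ∀ i (h : i ≤ m * b * (n + k)), nd i = ((⟨i, by omega⟩, acc b k M v i), ()) := by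
    intro i h
    rw [hnd, dif_pos h]
  refine computes_of_steps (blockProg m b k hn M) _ _ () v (mv M v) nd ?_ ?_ rfl ?_ ?_ ?_
  · rw [hnd' 0 (Nat.zero_le _), acc_zero b k M v (Nat.zero_mod _)]
    rfl
  · rw [hnd' _ le_rfl]
    exact act_halt _
  · intro i hi
    have h0 := Nat.mod_lt i (show 0 < n + k by omega)
    rw [hnd' i hi.le, hnd' (i + 1) hi]
    by_cases hp : i % (n + k) < n
    · exact ⟨_, Or.inl ⟨_, _, act_read hi (hjm i hi) hp _, rfl, by
        rw [acc_succ b k hk M v hp (hjm i hi)]⟩⟩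
    · by_cases hr : i / (n + k) % b * k + (i % (n + k) - n) < n
      · have h1 := act_write (m := m) (hn := hn) (M := M) hi (hjm i hi) hp hr (by omega)
          (acc b k M v i)
        rw [← acc_keep b k hk M v hp] at h1
        exact ⟨_, Or.inr ⟨_, _, h1, rfl⟩⟩
      · exact ⟨_, Or.inl ⟨_, _, act_none hi (hjm i hi) hp hr _, rfl, by
          rw [acc_keep b k hk M v hp]⟩⟩
  · intro i hi o w c
    have h0 := Nat.mod_lt i (show 0 < n + k by omega)
    rw [hnd' i hi.le]
    by_cases hp : i % (n + k) < n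
    · intro h
      cases (act_read hi (hjm i hi) hp _).symm.trans h
    · by_cases hr : i / (n + k) % b * k + (i % (n + k) - n) < n
      · intro h
        have h4 := (act_write (m := m) (hn := hn) (M := M) hi (hjm i hi) hp hr (by omega)
          (acc b k M v i)).symm.trans h
        injection h4 with h1 h2 h3
        rw [← h1, ← h2]
        exact acc_full b k M v (by omega) (hjm i hi) ⟨i % (n + k) - n, by omega⟩ hr
      · intro h
        cases (act_none hi (hjm i hi) hp hr _).symm.trans h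
  · rintro ⟨j, r⟩
    have hu : (r : ℕ) / k < b := by
      rw [Nat.div_lt_iff_lt_mul hk]
      have := r.2
      omega
    have ht : (r : ℕ) % k < k := Nat.mod_lt _ hk
    obtain ⟨i, hi⟩ : ∃ i, i = (j * b + (r : ℕ) / k) * (n + k) + (n + (r : ℕ) % k) := ⟨_, rfl⟩
    have hq : i / (n + k) = j * b + (r : ℕ) / k := by
      rw [hi, Nat.add_comm, Nat.add_mul_div_right _ _ (by omega), Nat.div_eq_of_lt (by omega),
        zero_add]
    have hm : i % (n + k) = n + (r : ℕ) % k := by
      rw [hi, Nat.add_comm, Nat.add_mul_mod_self_right, Nat.mod_eq_of_lt (by omega)]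
    have hj : i / (n + k) / b = j := by
      rw [hq, Nat.add_comm, Nat.add_mul_div_right _ _ hb0, Nat.div_eq_of_lt hu, zero_add]
    have hb' : i / (n + k) % b = (r : ℕ) / k := by
      rw [hq, Nat.add_comm, Nat.add_mul_mod_self_right, Nat.mod_eq_of_lt hu]
    have hrow : i / (n + k) % b * k + (i % (n + k) - n) = r := by
      rw [hb', hm, Nat.add_sub_cancel_left, mul_comm]
      exact Nat.div_add_mod _ _
    have hiL : i < m * b * (n + k) := by
      have h1 : i / (n + k) < m * b := by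
        rw [hq]
        calc (j : ℕ) * b + (r : ℕ) / k < j * b + b := by omega
          _ = (j + 1) * b := by ring
          _ ≤ m * b := Nat.mul_le_mul_right _ j.2
      exact (Nat.div_lt_iff_lt_mul (by omega)).1 h1
    have hp : ¬ i % (n + k) < n := by omega
    have hr : i / (n + k) % b * k + (i % (n + k) - n) < n := by rw [hrow]; exact r.2
    have h5 := act_write (m := m) (hn := hn) (M := M) hiL (hjm i hiL) hp hr (by omega)
      (acc b k M v i)
    have e1 : (⟨i / (n + k) / b, hjm i hiL⟩ : Fin m) = j := Fin.ext hj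
    have e2 : (⟨i / (n + k) % b * k + (i % (n + k) - n), hr⟩ : Fin n) = r := Fin.ext hrow
    have e3 := acc_full b k M v (by omega) (hjm i hiL) ⟨i % (n + k) - n, by omega⟩ hr
    rw [e3, e1, e2] at h5
    exact ⟨i, hiL, _, (congrArg (blockProg m b k hn M).act (hnd' i hiL.le)).trans h5⟩

/-- The upper bound in its final form. -/
theorem mv_upper {n : ℕ} (m k : ℕ) (hk : 1 ≤ k) (hkn : k ≤ n) (M : Fin n → Fin n → F) :
    ∃ P : Prog (Fin m × Fin n) (Fin m × Fin n) F Unit,
      Fintype.card P.Node ≤ (4 * n ^ 2 * m + 1) * Fintype.card F ^ k ∧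
      ∃ T : ℕ, T * k ≤ 4 * n ^ 2 * m ∧ ∀ v, P.Computes Eq T () v (mv M v) := by
  have h1 : (n / k + 1) * k ≤ 2 * n := by
    have := Nat.div_mul_le_self n k
    rw [Nat.succ_mul]
    omega
  have h2 : m * (n / k + 1) * (n + k) * k ≤ 4 * n ^ 2 * m := by
    calc m * (n / k + 1) * (n + k) * k = m * ((n / k + 1) * k) * (n + k) := by ring
      _ ≤ m * (2 * n) * (2 * n) := Nat.mul_le_mul (Nat.mul_le_mul_left _ h1) (by omega)
      _ = _ := by ring
  refine ⟨blockProg m (n / k + 1) k (by omega) M, ?_, m * (n / k + 1) * (n + k), h2, ?_⟩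
  · have h3 : Fintype.card (blockProg m (n / k + 1) k (by omega) M).Node =
        (m * (n / k + 1) * (n + k) + 1) * Fintype.card F ^ k := by
      have h4 : Fintype.card (Fin (m * (n / k + 1) * (n + k) + 1) × (Fin k → F)) =
          (m * (n / k + 1) * (n + k) + 1) * Fintype.card F ^ k := by
        rw [Fintype.card_prod, Fintype.card_fin, Fintype.card_fun, Fintype.card_fin]
      exact h4
    rw [h3]
    apply Nat.mul_le_mul_right
    have h5 : m * (n / k + 1) * (n + k) ≤ m * (n / k + 1) * (n + k) * k :=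
      Nat.le_mul_of_pos_right _ hk
    omega
  · intro v
    exact block_computes m (n / k + 1) k (by omega) hk
      (by
        have h6 := Nat.div_add_mod n k
        have h7 := Nat.mod_lt n hk
        rw [Nat.succ_mul, mul_comm (n / k) k]
        omega) M v

end Pool.Agent.U737.CT
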