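import Pool.Agent.U737.CT.Model
import Pool.Agent.W896.MO.Union

/-!
# The union bound over the configurations
-/

set_option autoImplicit false

open Finset

namespace Pool.Agent.U737.CT

open Pool.Agent.W896.MO (Ev Proc Good)

variable {ι ω α Γ : Type}

theorem after_add (P : Prog ι ω α Γ) (x : ι → α) (s t : ℕ) (c : P.Node × Γ) :
    P.after x (s + t) c = P.after x t (P.after x s c) := by
  induction s generalizing c with
  | zero => simp [Prog.after]
  | succ s ih =>
    rw [Nat.succ_add]
    simp only [Prog.after]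
    rcases h : P.act c with ⟨i, nxt⟩ | ⟨o, v, c'⟩ | _
    · exact ih _
    · exact ih _
    · simp only
      cases t with
      | zero => rfl
      | succ t => simp only [Prog.after, h]

theorem trace_add (P : Prog ι ω α Γ) (x : ι → α) (s t : ℕ) (c : P.Node × Γ) :
    P.trace x (s + t) c = P.trace x s c ++ P.trace x t (P.after x s c) := by
  induction s generalizing c with
  | zero => simp [Prog.trace, Prog.after]
  | succ s ih =>
    rw [Nat.succ_add]
    simp only [Prog.trace, Prog.after]
    rcases h : P.act c with ⟨i, nxt⟩ | ⟨o, v, c'⟩ | _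
    · simp only [List.cons_append]; rw [ih]
    · simp only [List.cons_append]; rw [ih]
    · simp only [List.nil_append]
      cases t with
      | zero => rfl
      | succ t => simp only [Prog.trace, h]

theorem trace_length (P : Prog ι ω α Γ) (x : ι → α) (t : ℕ) (c : P.Node × Γ) :
    (P.trace x t c).length ≤ t := by
  induction t generalizing c with
  | zero => simp [Prog.trace]
  | succ t ih =>
    simp only [Prog.trace]
    rcases h : P.act c with ⟨i, nxt⟩ | ⟨o, v, c'⟩ | _
    · simp only [List.length_cons]; have := ih (nxt (x i)); omega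
    · simp only [List.length_cons]; have := ih c'; omega
    · simp

theorem after_halt (P : Prog ι ω α Γ) (x : ι → α) (t : ℕ) {c : P.Node × Γ}
    (h : P.act c = Act.halt) : P.after x t c = c := by
  cases t with
  | zero => rfl
  | succ t => simp only [Prog.after, h]

theorem trace_halt (P : Prog ι ω α Γ) (x : ι → α) (t : ℕ) {c : P.Node × Γ}
    (h : P.act c = Act.halt) : P.trace x t c = [] := by
  cases t with
  | zero => rfl
  | succ t => simp only [Prog.trace, h]

/-- The procedure which consists of the first `a` reads and writes from the configuration `c`. -/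
def rel (P : Prog ι ω α Γ) (a : ℕ) (c : P.Node × Γ) :
    (ι → α) → List (Option (Ev ι ω α)) → Prop :=
  fun x l => l = (P.trace x a c).map some

theorem trace_congr (P : Prog ι ω α Γ) (x y : ι → α) (t : ℕ) (c : P.Node × Γ)
    (h : ∀ i, .inl i ∈ P.trace x t c → .inl i ∈ P.trace y t c → x i = y i) :
    P.trace x t c = P.trace y t c := by
  induction t generalizing c with
  | zero => rfl
  | succ t ih =>
    simp only [Prog.trace] at h ⊢
    rcases h' : P.act c with ⟨i, nxt⟩ | ⟨o, v, c'⟩ | _
    · rw [h'] at h
      simp only at h ⊢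
      have h1 := h i (List.mem_cons_self) (List.mem_cons_self)
      rw [h1] at h ⊢
      rw [ih (nxt (y i))]
      intro j hj hj'
      exact h j (List.mem_cons_of_mem _ hj) (List.mem_cons_of_mem _ hj')
    · rw [h'] at h
      simp only at h ⊢
      rw [ih c']
      intro j hj hj'
      exact h j (List.mem_cons_of_mem _ hj) (List.mem_cons_of_mem _ hj')
    · rfl

theorem trace_trans (P : Prog ι ω α Γ) (x y : ι → α) (t : ℕ) (c : P.Node × Γ)
    (h : ∀ i, .inl i ∈ P.trace x t c → y i = x i) :
    P.trace x t c = P.trace y t c := by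
  induction t generalizing c with
  | zero => rfl
  | succ t ih =>
    simp only [Prog.trace] at h ⊢
    rcases h' : P.act c with ⟨i, nxt⟩ | ⟨o, v, c'⟩ | _
    · rw [h'] at h
      simp only at h ⊢
      have h1 := h i (List.mem_cons_self)
      rw [h1]
      rw [ih (nxt (x i))]
      intro j hj
      exact h j (List.mem_cons_of_mem _ hj)
    · rw [h'] at h
      simp only at h ⊢
      rw [ih c']
      intro j hj
      exact h j (List.mem_cons_of_mem _ hj)
    · rfl

theorem mem_map_some {β : Type} {l : List β} {b : β} : some b ∈ l.map some ↔ b ∈ l := by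
  simp

theorem proc_rel (P : Prog ι ω α Γ) (a : ℕ) (c : P.Node × Γ) : Proc (rel P a c) where
  uniq := by
    intro x y l l' hl hl' h
    unfold rel at hl hl'
    subst hl hl'
    rw [trace_congr P x y a c]
    intro i hi hi'
    exact h i (mem_map_some.2 hi) (mem_map_some.2 hi')
  trans := by
    intro x y l hl h
    unfold rel at hl ⊢
    subst hl
    rw [trace_trans P x y a c]
    intro i hi
    exact h i (mem_map_some.2 hi)

/-- The trace is covered by the traces of the blocks. -/
theorem mem_block (P : Prog ι ω α Γ) (x : ι → α) (a k : ℕ) (c : P.Node × Γ)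
    (e : ι ⊕ (ω × α)) (h : e ∈ P.trace x (k * a) c) :
    ∃ j < k, e ∈ P.trace x a (P.after x (j * a) c) := by
  induction k with
  | zero => simp [Prog.trace] at h
  | succ k ih =>
    rw [Nat.succ_mul, trace_add, List.mem_append] at h
    rcases h with h | h
    · obtain ⟨j, hj, h1⟩ := ih h
      exact ⟨j, by omega, h1⟩
    · exact ⟨k, by omega, h⟩

open Classical in
/-- **The union bound over the configurations.** The catalytic memory does not count: at a given
configuration and input the rest of the computation, and hence the final contents of the catalytic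
memory, is determined, and there are at most `B` possible contents at the beginning. -/
theorem union_bound {Ω : Type} [Fintype Ω] [Fintype ω] [Fintype Γ] (P : Prog ι ω α Γ)
    (E : Γ → Γ → Prop) (X : Ω → ι → α)
    (f : (ι → α) → ω → α) (Cnt : Ω → ω → Prop) (Gd : Ω → Prop) {a N₀ N₁ T K B : ℕ} (ha : 1 ≤ a)
    (hN₁ : 1 ≤ N₁) (hN : (T / a + 1) * N₁ ≤ N₀)
    (hB : ∀ τ', Nat.card {τ // E τ τ'} ≤ B)
    (hG : ∀ y, Gd y → N₀ ≤ (univ.filter (fun o => Cnt y o)).card)
    (hK : ∀ Rel, Proc Rel → (univ.filter (fun y => Gd y ∧ Good X f Cnt a N₁ Rel y)).card ≤ K) :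
    (univ.filter (fun u : Γ × Ω => Gd u.2 ∧ P.Computes E T u.1 (X u.2) (f (X u.2)))).card ≤
      Fintype.card P.Node * Fintype.card Γ * (B * K) := by
  have key : ∀ u : Γ × Ω, Gd u.2 → P.Computes E T u.1 (X u.2) (f (X u.2)) →
      ∃ c : P.Node × Γ, Good X f Cnt a N₁ (rel P a c) u.2 ∧
        E u.1 (P.after (X u.2) T c).2 := by
    rintro ⟨τ, y⟩ hy ⟨h1, h2, h3, h4⟩
    simp only at hy h1 h2 h3 h4 ⊢
    have hTa : T ≤ (T / a + 1) * a := by
      have := Nat.lt_div_mul_add (a := T) (b := a) (by omega)
      rw [Nat.succ_mul]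
      omega
    have htr : P.trace (X y) ((T / a + 1) * a) (P.start, τ) = P.trace (X y) T (P.start, τ) := by
      obtain ⟨d, hd⟩ := Nat.exists_eq_add_of_le hTa
      rw [hd, trace_add, trace_halt P _ _ h1, List.append_nil]
    have haf : ∀ j, P.after (X y) T (P.after (X y) j (P.start, τ)) =
        P.after (X y) T (P.start, τ) := by
      intro j
      rw [← after_add, Nat.add_comm, after_add, after_halt P _ _ h1]
    obtain ⟨out, hout⟩ : ∃ out : ℕ → Finset ω, ∀ j, out j =
      univ.filter (fun o => Cnt y o ∧ .inr (o, f (X y) o) ∈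
        P.trace (X y) a (P.after (X y) (j * a) (P.start, τ))) := ⟨_, fun _ => rfl⟩
    have hex : ∃ j < T / a + 1, N₁ ≤ (out j).card := by
      by_contra hcon
      push Not at hcon
      have hsub : univ.filter (fun o => Cnt y o) ⊆ (range (T / a + 1)).biUnion out := by
        intro o ho
        rw [mem_filter] at ho
        have h5 := h4 o
        rw [← htr] at h5
        obtain ⟨j, hj, h6⟩ := mem_block P (X y) a _ _ _ h5
        rw [mem_biUnion]
        refine ⟨j, mem_range.2 hj, ?_⟩
        rw [hout, mem_filter]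
        exact ⟨mem_univ _, ho.2, h6⟩
      have h7 : (univ.filter (fun o => Cnt y o)).card ≤ (T / a + 1) * (N₁ - 1) := by
        calc _ ≤ ((range (T / a + 1)).biUnion out).card := card_le_card hsub
          _ ≤ ∑ j ∈ range (T / a + 1), (out j).card := card_biUnion_le
          _ ≤ ∑ _j ∈ range (T / a + 1), (N₁ - 1) := sum_le_sum (fun j hj => by
              have := hcon j (mem_range.1 hj)
              omega)
          _ = _ := by rw [sum_const, smul_eq_mul, card_range]
      have h8 := hG y hy
      have h10 : (T / a + 1) * (N₁ - 1) < (T / a + 1) * N₁ :=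
        (Nat.mul_lt_mul_left (Nat.succ_pos _)).2 (by omega)
      omega
    obtain ⟨j, hj, h5⟩ := hex
    refine ⟨P.after (X y) (j * a) (P.start, τ), ⟨_, rfl, ?_, ?_, out j, h5, ?_⟩, ?_⟩
    · rw [List.length_map]
      exact (trace_length P _ _ _).trans (by omega)
    · intro o v hv
      rw [mem_map_some] at hv
      refine h3 o v ?_
      rw [← htr]
      have h6 : (j * a + a) + ((T / a + 1) * a - (j * a + a)) = (T / a + 1) * a := by
        have : (j + 1) * a ≤ (T / a + 1) * a := Nat.mul_le_mul_right _ hj
        rw [Nat.succ_mul j a] at this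
        omega
      rw [← h6, trace_add, trace_add]
      rw [List.mem_append, List.mem_append]
      exact Or.inl (Or.inr hv)
    · intro o ho
      rw [hout, mem_filter] at ho
      exact ⟨ho.2.1, mem_map_some.2 ho.2.2⟩
    · rw [haf]; exact h2
  obtain ⟨Z, hZ⟩ : ∃ Z : P.Node × Γ → Finset Ω, ∀ c, Z c =
    univ.filter (fun y => Gd y ∧ Good X f Cnt a N₁ (rel P a c) y) := ⟨_, fun _ => rfl⟩
  obtain ⟨W, hW⟩ : ∃ W : P.Node × Γ → Ω → Finset Γ, ∀ c y, W c y =
    univ.filter (fun τ => E τ (P.after (X y) T c).2) := ⟨_, fun _ _ => rfl⟩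
  have hsub : univ.filter (fun u : Γ × Ω => Gd u.2 ∧ P.Computes E T u.1 (X u.2) (f (X u.2))) ⊆
      (univ : Finset (P.Node × Γ)).biUnion
        (fun c => (Z c).biUnion (fun y => (W c y).map ⟨fun τ => (τ, y), fun _ _ h => by
          simpa using h⟩)) := by
    rintro ⟨τ, y⟩ hu
    rw [mem_filter] at hu
    obtain ⟨c, h1, h2⟩ := key (τ, y) hu.2.1 hu.2.2
    rw [mem_biUnion]
    refine ⟨c, mem_univ _, ?_⟩
    rw [mem_biUnion]
    refine ⟨y, ?_, ?_⟩
    · rw [hZ, mem_filter]; exact ⟨mem_univ _, hu.2.1, h1⟩
    · rw [mem_map]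
      refine ⟨τ, ?_, rfl⟩
      rw [hW, mem_filter]
      exact ⟨mem_univ _, h2⟩
  calc _ ≤ _ := card_le_card hsub
    _ ≤ ∑ c : P.Node × Γ, ((Z c).biUnion (fun y => (W c y).map ⟨fun τ => (τ, y), fun _ _ h => by
          simpa using h⟩)).card := card_biUnion_le
    _ ≤ ∑ c : P.Node × Γ, ∑ y ∈ Z c, (W c y).card := by
        refine sum_le_sum (fun c _ => ?_)
        refine card_biUnion_le.trans (le_of_eq ?_)
        refine sum_congr rfl (fun y _ => ?_)
        rw [card_map]
    _ ≤ ∑ c : P.Node × Γ, ∑ _y ∈ Z c, B := by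
        refine sum_le_sum (fun c _ => sum_le_sum (fun y _ => ?_))
        have := hB (P.after (X y) T c).2
        rw [Nat.card_eq_fintype_card, Fintype.card_subtype] at this
        rw [hW]
        exact this
    _ ≤ ∑ _c : P.Node × Γ, B * K := by
        refine sum_le_sum (fun c _ => ?_)
        rw [sum_const, smul_eq_mul, mul_comm]
        apply Nat.mul_le_mul_left
        rw [hZ]
        exact hK _ (proc_rel P a c)
    _ = _ := by
        rw [sum_const, card_univ, Fintype.card_prod, smul_eq_mul]

end Pool.Agent.U737.CT
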