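import Mathlib

/-!
# Programs with outputs and a catalytic memory: definitions
-/

set_option autoImplicit false

namespace Pool.Agent.U737.CT

/-- What is done in a configuration of a program (an element of `C`): `read i nxt` reads the input
`i` and proceeds to the configuration `nxt v`, `v` being its value; `write o v c` writes the value
`v` for the output `o` and proceeds to the configuration `c`; `halt` ends the computation. -/
inductive Act (ι ω α C : Type) where
  | read (i : ι) (nxt : α → C)
  | write (o : ω) (v : α) (c : C)
  | halt

/-- A (deterministic) program with inputs `ι`, outputs `ω`, values `α`, and a catalytic memory, the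
possible contents of which are the elements of `Γ`. A configuration consists of a node (the contents
of the clean memory) and the contents of the catalytic memory; what is done next depends on both in
an arbitrary way, and an action can change both in an arbitrary way. -/
structure Prog (ι ω α Γ : Type) where
  /-- the nodes -/
  Node : Type
  /-- there are finitely many of them -/
  [fintype : Fintype Node]
  /-- the start node -/
  start : Node
  /-- what is done in a configuration -/
  act : Node × Γ → Act ι ω α (Node × Γ)

attribute [instance] Prog.fintype

variable {ι ω α Γ : Type}

/-- The first `t` reads (`inl i`) and writes (`inr (o, v)`) which the program does on the input `x`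
from the configuration `c` (fewer than `t` if it halts before). -/
def Prog.trace (P : Prog ι ω α Γ) (x : ι → α) : ℕ → P.Node × Γ → List (ι ⊕ (ω × α))
  | 0, _ => []
  | t + 1, c => match P.act c with
    | .read i nxt => .inl i :: P.trace x t (nxt (x i))
    | .write o v c' => .inr (o, v) :: P.trace x t c'
    | .halt => []

/-- The configuration after the first `t` reads and writes on the input `x` from the configuration
`c` (the last configuration, if the program halts before). -/
def Prog.after (P : Prog ι ω α Γ) (x : ι → α) : ℕ → P.Node × Γ → P.Node × Γ
  | 0, c => c
  | t + 1, c => match P.act c with
    | .read i nxt => P.after x t (nxt (x i))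
    | .write _ _ c' => P.after x t c'
    | .halt => c

/-- Started with the contents `τ` of the catalytic memory, on the input `x`, the program halts after
at most `T` reads and writes, with contents `τ'` of the catalytic memory such that `E τ τ'` (for
instance `τ' = τ`); it writes the right value `y o` for every output `o`, and no wrong values. -/
def Prog.Computes (P : Prog ι ω α Γ) (E : Γ → Γ → Prop) (T : ℕ) (τ : Γ) (x : ι → α)
    (y : ω → α) : Prop :=
  P.act (P.after x T (P.start, τ)) = Act.halt ∧ E τ (P.after x T (P.start, τ)).2 ∧
    (∀ o v, .inr (o, v) ∈ P.trace x T (P.start, τ) → v = y o) ∧
    ∀ o, .inr (o, y o) ∈ P.trace x T (P.start, τ)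

end Pool.Agent.U737.CT
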