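import Pool.Agent.U737.CT.Core
import Pool.Agent.W896.MO.MvFinal

/-!
# Matrix-vector products with a catalytic memory: the lower bound
-/

set_option autoImplicit false

open Finset

namespace Pool.Agent.U737.CT

open Pool.Agent.W896.MO (Ev Proc Good flat mv LG mv_proc avg_exists bad_count)

variable {F : Type} [Field F] [Fintype F] {n m : ℕ}

open Classical in
theorem mv_count [DecidableEq F] (M : Fin n → Fin n → F) (hM : LG M) (hn : 128 ≤ n) {Γ : Type}
    [Fintype Γ] (P : Prog (Fin m × Fin n) (Fin m × Fin n) F Γ) (E : Γ → Γ → Prop) {T N₁ B : ℕ}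
    (hB : ∀ τ', Nat.card {τ // E τ τ'} ≤ B)
    (hN₁ : 1 ≤ N₁) (hN : (T / (n / 128) + 1) * N₁ ≤ m * n) :
    (univ.filter (fun u : Γ × (Fin m → Fin n → F) =>
      P.Computes E T u.1 (flat u.2) (mv M (flat u.2)))).card * Fintype.card F ^ (N₁ / 16) ≤
      Fintype.card P.Node * Fintype.card Γ * (B * Fintype.card (Fin m → Fin n → F)) := by
  have h := union_bound P E (flat : (Fin m → Fin n → F) → _) (mv M) (fun _ _ => True)
    (fun _ => True) (a := n / 128) (N₀ := m * n) (N₁ := N₁) (T := T) (B := B)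
    (K := Fintype.card (Fin m → Fin n → F) / Fintype.card F ^ (N₁ / 16))
    (by omega) hN₁ hN hB (fun y _ => by
      simp only [filter_true, card_univ, Fintype.card_prod, Fintype.card_fin, le_refl])
    (fun Rel hRel => by convert mv_proc M hM (a := n / 128) (N₁ := N₁) (by omega) hRel)
  simp only [true_and] at h
  calc _ ≤ (Fintype.card P.Node * Fintype.card Γ *
        (B * (Fintype.card (Fin m → Fin n → F) / Fintype.card F ^ (N₁ / 16)))) *
        Fintype.card F ^ (N₁ / 16) := Nat.mul_le_mul_right _ (by convert h)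
    _ = Fintype.card P.Node * Fintype.card Γ * (B *
        (Fintype.card (Fin m → Fin n → F) / Fintype.card F ^ (N₁ / 16) *
        Fintype.card F ^ (N₁ / 16))) := by ring
    _ ≤ _ := Nat.mul_le_mul_left _ (Nat.mul_le_mul_left _ (Nat.div_mul_le_self _ _))

/-- The arithmetic at the end. -/
theorem final_arith {n m T s q π N a : ℕ} (hn : 128 ≤ n) (hq : 2 ≤ q) (hs : 1 ≤ s)
    (hT : n * m ≤ T) (hm : 1 ≤ m) (ha : a = n / 128)
    (hN : N = (n * m) / (T / a + 1)) (hmain : q ^ (N / 16) ≤ 2 ^ π * s) :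
    (n : ℝ) ^ 2 * m * Real.logb 2 q ≤
      2 ^ 13 * T * (Real.logb 2 s + π + Real.logb 2 q) := by
  have hL0 : 0 ≤ Real.logb 2 (s : ℝ) := Real.logb_nonneg (by norm_num) (by exact_mod_cast hs)
  have hq1 : 1 ≤ Real.logb 2 (q : ℝ) := by
    rw [Real.le_logb_iff_rpow_le (by norm_num) (by exact_mod_cast (by omega : 0 < q))]
    simp only [Real.rpow_one]
    exact_mod_cast hq
  have h3 : ((N / 16 : ℕ) : ℝ) * Real.logb 2 q ≤ π + Real.logb 2 s := by
    have h4 : (q : ℝ) ^ (N / 16) ≤ 2 ^ π * s := by exact_mod_cast hmain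
    have h5 := Real.logb_le_logb_of_le (b := 2) (by norm_num)
      (by have : (0 : ℝ) < q := by exact_mod_cast (by omega : 0 < q)
          positivity) h4
    have hs0 : (s : ℝ) ≠ 0 := by
      have : 0 < s := hs
      exact_mod_cast this.ne'
    rw [Real.logb_pow, Real.logb_mul (by positivity) hs0, Real.logb_pow,
      Real.logb_self_eq_one (by norm_num)] at h5
    simp only [mul_one] at h5
    exact h5
  have ha1 : 1 ≤ a := by omega
  have ha2 : n ≤ 256 * a := by omega
  have ha3 : a ≤ n := by omega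
  have hD : (T / a + 1) * a ≤ 2 * T := by
    have h4 : T / a * a ≤ T := Nat.div_mul_le_self _ _
    have h5 : a ≤ T := by
      calc a ≤ n := ha3
        _ = n * 1 := (mul_one n).symm
        _ ≤ n * m := Nat.mul_le_mul_left _ hm
        _ ≤ T := hT
    calc (T / a + 1) * a = T / a * a + a := by ring
      _ ≤ T + T := Nat.add_le_add h4 h5
      _ = 2 * T := by ring
  have h6 : n * m ≤ (T / a + 1) * (16 * (N / 16 + 1)) := by
    have h7 : n * m < (T / a + 1) * (N + 1) := by
      rw [hN]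
      exact Nat.lt_mul_div_succ _ (Nat.succ_pos _)
    have h8 : N + 1 ≤ 16 * (N / 16 + 1) := by omega
    exact h7.le.trans (Nat.mul_le_mul_left _ h8)
  have h9 : n ^ 2 * m ≤ 8192 * T * (N / 16 + 1) := by
    calc n ^ 2 * m = n * (n * m) := by ring
      _ ≤ (256 * a) * ((T / a + 1) * (16 * (N / 16 + 1))) := Nat.mul_le_mul ha2 h6
      _ = 4096 * ((T / a + 1) * a) * (N / 16 + 1) := by ring
      _ ≤ 4096 * (2 * T) * (N / 16 + 1) :=
          Nat.mul_le_mul_right _ (Nat.mul_le_mul_left _ hD)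
      _ = _ := by ring
  have h10 : (n : ℝ) ^ 2 * m ≤ 8192 * T * ((N / 16 : ℕ) + 1) := by exact_mod_cast h9
  have hT0 : (0 : ℝ) ≤ T := Nat.cast_nonneg _
  calc (n : ℝ) ^ 2 * m * Real.logb 2 q ≤
        8192 * T * ((N / 16 : ℕ) + 1) * Real.logb 2 q :=
        mul_le_mul_of_nonneg_right h10 (by linarith)
    _ = 8192 * T * (((N / 16 : ℕ) : ℝ) * Real.logb 2 q + Real.logb 2 q) := by ring
    _ ≤ 8192 * T * ((π + Real.logb 2 s) + Real.logb 2 q) := by
        apply mul_le_mul_of_nonneg_left _ (by positivity)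
        linarith
    _ = _ := by ring

theorem card_flat {Γ : Type} (A : Γ → (Fin m × Fin n → F) → Prop) :
    Nat.card {u : Γ × (Fin m × Fin n → F) // A u.1 u.2} =
      Nat.card {u : Γ × (Fin m → Fin n → F) // A u.1 (flat u.2)} := by
  refine Nat.card_congr (Equiv.subtypeEquiv ((Equiv.refl Γ).prodCongr (Equiv.curry _ _ _)) ?_)
  intro v
  rfl

/-- The number of the outputs is at most the number of the writes. -/
theorem computes_card_le {ι ω α Γ : Type} [Fintype ω] {P : Prog ι ω α Γ} {E : Γ → Γ → Prop} {T : ℕ}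
    {τ : Γ} {x : ι → α} {y : ω → α} (h : P.Computes E T τ x y) : Fintype.card ω ≤ T := by
  classical
  obtain ⟨-, -, -, h4⟩ := h
  have h5 : (univ : Finset ω).image (fun o => (.inr (o, y o) : ι ⊕ (ω × α))) ⊆
      (P.trace x T (P.start, τ)).toFinset := by
    intro e he
    rw [mem_image] at he
    obtain ⟨o, -, rfl⟩ := he
    exact List.mem_toFinset.2 (h4 o)
  have h6 := card_le_card h5
  rw [card_image_of_injective _ (fun o o' h => by
    simp only [Sum.inr.injEq, Prod.mk.injEq] at h; exact h.1), card_univ] at h6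
  exact h6.trans ((List.toFinset_card_le _).trans (trace_length P _ _ _))

/-- A program which multiplies a matrix with the property `LG` by random vectors. -/
theorem mv_fixed [DecidableEq F] (M : Fin n → Fin n → F) (hM : 128 ≤ n → LG M) {Γ : Type}
    [Fintype Γ] [Nonempty Γ]
    (P : Prog (Fin m × Fin n) (Fin m × Fin n) F Γ) (E : Γ → Γ → Prop) {B : ℕ}
    (hB : ∀ τ', Nat.card {τ // E τ τ'} ≤ B) (T π : ℕ)
    (h : Nat.card Γ * Fintype.card F ^ (n * m) ≤ 2 ^ π *
      Nat.card {u : Γ × (Fin m × Fin n → F) // P.Computes E T u.1 u.2 (mv M u.2)}) :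
    (n : ℝ) ^ 2 * m * Real.logb 2 (Fintype.card F) ≤ 2 ^ 13 * T *
      (Real.logb 2 (Fintype.card P.Node * B : ℕ) + π + Real.logb 2 (Fintype.card F)) := by
  classical
  have hq : 2 ≤ Fintype.card F := Fintype.one_lt_card
  have hΓ : 0 < Nat.card Γ := Nat.card_pos
  obtain ⟨⟨τ, v⟩, hv⟩ : ∃ u : Γ × (Fin m × Fin n → F), P.Computes E T u.1 u.2 (mv M u.2) := by
    by_contra hcon
    push Not at hcon
    have h1 : Nat.card {u : Γ × (Fin m × Fin n → F) // P.Computes E T u.1 u.2 (mv M u.2)} = 0 := by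
      rw [Nat.card_eq_zero]
      left
      exact ⟨fun v => hcon v.1 v.2⟩
    rw [h1, mul_zero] at h
    have h2 : 0 < Nat.card Γ * Fintype.card F ^ (n * m) := by positivity
    omega
  have hT : n * m ≤ T := by
    have h1 := computes_card_le hv
    rwa [Fintype.card_prod, Fintype.card_fin, Fintype.card_fin, mul_comm] at h1
  have hB1 : 1 ≤ B := by
    refine le_trans ?_ (hB (P.after v T (P.start, τ)).2)
    rw [Nat.succ_le_iff, Nat.card_pos_iff]
    exact ⟨⟨⟨τ, hv.2.1⟩⟩, inferInstance⟩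
  have hs1 : 1 ≤ Fintype.card P.Node * B :=
    Nat.mul_pos (Fintype.card_pos_iff.2 ⟨P.start⟩) hB1
  have hL0 : 0 ≤ Real.logb 2 ((Fintype.card P.Node * B : ℕ) : ℝ) :=
    Real.logb_nonneg (by norm_num) (by exact_mod_cast hs1)
  have hq0 : 0 ≤ Real.logb 2 (Fintype.card F : ℝ) :=
    Real.logb_nonneg (by norm_num) (by exact_mod_cast (by omega : 1 ≤ Fintype.card F))
  have hT0 : (0 : ℝ) ≤ T := Nat.cast_nonneg _
  have hπ0 : (0 : ℝ) ≤ π := Nat.cast_nonneg _
  have easy : (n : ℝ) ^ 2 * m ≤ 2 ^ 13 * T → (n : ℝ) ^ 2 * m * Real.logb 2 (Fintype.card F) ≤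
      2 ^ 13 * T * (Real.logb 2 (Fintype.card P.Node * B : ℕ) + π +
        Real.logb 2 (Fintype.card F)) := by
    intro h1
    calc (n : ℝ) ^ 2 * m * Real.logb 2 (Fintype.card F) ≤
          2 ^ 13 * T * Real.logb 2 (Fintype.card F) := mul_le_mul_of_nonneg_right h1 hq0
      _ ≤ _ := mul_le_mul_of_nonneg_left (by linarith) (by positivity)
  by_cases hn : 128 ≤ n
  swap
  · apply easy
    have h1 : n ^ 2 * m ≤ 2 ^ 13 * T := by
      calc n ^ 2 * m = n * (n * m) := by ring
        _ ≤ 128 * T := Nat.mul_le_mul (by omega) hT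
        _ ≤ _ := Nat.mul_le_mul_right _ (by norm_num)
    exact_mod_cast h1
  by_cases hm : 1 ≤ m
  swap
  · apply easy
    have h1 : m = 0 := by omega
    subst h1
    simp
  obtain ⟨a, ha⟩ : ∃ a, a = n / 128 := ⟨_, rfl⟩
  obtain ⟨N, hN⟩ : ∃ N, N = (n * m) / (T / a + 1) := ⟨_, rfl⟩
  have hmain : 1 ≤ N → Fintype.card F ^ (N / 16) ≤ 2 ^ π * (Fintype.card P.Node * B) := by
    intro hN1
    have h1 := mv_count M (hM hn) hn P E (T := T) (N₁ := N) hB hN1 (by
      rw [← ha, hN, mul_comm m n]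
      exact Nat.mul_div_le _ _)
    rw [card_flat (F := F) (fun τ v => P.Computes E T τ v (mv M v)),
      Nat.card_eq_fintype_card (α := {u : Γ × (Fin m → Fin n → F) // _}),
      Fintype.card_subtype] at h
    have h2 : Fintype.card (Fin m → Fin n → F) = Fintype.card F ^ (n * m) := by
      rw [Fintype.card_fun, Fintype.card_fun, Fintype.card_fin, Fintype.card_fin, ← pow_mul]
    rw [h2] at h1
    have h3 : 0 < Nat.card Γ * Fintype.card F ^ (n * m) := by positivity
    refine Nat.le_of_mul_le_mul_left ?_ h3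
    calc Nat.card Γ * Fintype.card F ^ (n * m) * Fintype.card F ^ (N / 16) ≤
          (2 ^ π * _) * Fintype.card F ^ (N / 16) := Nat.mul_le_mul_right _ h
      _ = 2 ^ π * (_ * Fintype.card F ^ (N / 16)) := by rw [mul_assoc]
      _ ≤ 2 ^ π * _ := Nat.mul_le_mul_left _ h1
      _ = _ := by rw [Nat.card_eq_fintype_card]; ring
  by_cases hN1 : 1 ≤ N
  · exact final_arith hn hq hs1 hT hm ha hN (hmain hN1)
  · refine final_arith hn hq hs1 hT hm ha hN ?_
    have h1 : N = 0 := by omega
    rw [h1]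
    simp only [Nat.zero_div, pow_zero]
    have h3 : 1 ≤ 2 ^ π := Nat.one_le_two_pow
    calc 1 = 1 * 1 := by norm_num
      _ ≤ _ := Nat.mul_le_mul h3 hs1

/-- **The trade-off for matrix-vector products with a catalytic memory.** -/
theorem mv_main (n : ℕ) : ∃ Bad : Set (Fin n → Fin n → F),
    Nat.card Bad * 2 ^ (n / 4) ≤ Fintype.card F ^ (n * n) ∧
    ∀ M, M ∉ Bad → ∀ (m T π s B : ℕ) (Γ R : Type) [Fintype Γ] [Nonempty Γ] [Fintype R]
      [Nonempty R] (E : Γ → Γ → Prop) (P : R → Prog (Fin m × Fin n) (Fin m × Fin n) F Γ),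
      (∀ r, Fintype.card (P r).Node ≤ s) → (∀ τ', Nat.card {τ // E τ τ'} ≤ B) →
      Nat.card R * (Nat.card Γ * Fintype.card F ^ (n * m)) ≤ 2 ^ π *
        Nat.card {u : R × (Γ × (Fin m × Fin n → F)) //
          (P u.1).Computes E T u.2.1 u.2.2 (mv M u.2.2)} →
      (n : ℝ) ^ 2 * m * Real.logb 2 (Fintype.card F) ≤
        2 ^ 13 * T * (Real.logb 2 (s * B) + π + Real.logb 2 (Fintype.card F)) := by
  classical
  refine ⟨{M | 128 ≤ n ∧ ¬ LG M}, ?_, ?_⟩
  · by_cases hn : 128 ≤ n
    · have h1 := bad_count (F := F) (n := n) (by omega)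
      refine le_trans (le_of_eq ?_) h1
      congr 1
      rw [Nat.card_eq_fintype_card]
      rw [Fintype.card_ofFinset]
      congr 1
      ext M
      simp [hn]
    · have h1 : {M : Fin n → Fin n → F | 128 ≤ n ∧ ¬ LG M} = ∅ := by
        ext M
        simp [hn]
      rw [h1]
      simp
  · intro M hM m T π s B Γ R _ _ _ _ E P hs hB hc
    have hM' : 128 ≤ n → LG M := by
      intro h
      by_contra h1
      exact hM ⟨h, h1⟩
    have hcard : Nat.card (Γ × (Fin m × Fin n → F)) = Nat.card Γ * Fintype.card F ^ (n * m) := by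
      rw [Nat.card_prod, Nat.card_eq_fintype_card (α := Fin m × Fin n → F), Fintype.card_fun,
        Fintype.card_prod, Fintype.card_fin, Fintype.card_fin, mul_comm m n]
    obtain ⟨r, hr⟩ := avg_exists (fun r (u : Γ × (Fin m × Fin n → F)) =>
      (P r).Computes E T u.1 u.2 (mv M u.2)) (2 ^ π) (by rw [hcard]; exact hc)
    rw [hcard] at hr
    have h1 := mv_fixed M hM' (P r) E hB T π hr
    refine h1.trans ?_
    apply mul_le_mul_of_nonneg_left _ (by positivity)
    rcases Nat.eq_zero_or_pos (Fintype.card (P r).Node * B) with h2 | h2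
    · rw [h2]
      have h3 : 0 ≤ Real.logb 2 ((s : ℝ) * B) := by
        by_cases h4 : s * B = 0
        · have h5 : (s : ℝ) * B = 0 := by exact_mod_cast h4
          rw [h5]
          simp
        · exact Real.logb_nonneg (by norm_num) (by exact_mod_cast (Nat.pos_of_ne_zero h4))
      simp only [CharP.cast_eq_zero, Real.logb_zero]
      linarith
    · have h3 : Real.logb 2 ((Fintype.card (P r).Node * B : ℕ) : ℝ) ≤ Real.logb 2 ((s : ℝ) * B) :=
        Real.logb_le_logb_of_le (by norm_num) (by exact_mod_cast h2)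
          (by exact_mod_cast Nat.mul_le_mul_right B (hs r))
      linarith

end Pool.Agent.U737.CT
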